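import Pool.Agent.H12.EV.Model

/-!
The upper bound for `NU` by the model probabilities `F`.
-/

set_option autoImplicit false

namespace Pool.Agent.H19.EV

open Pool.Agent.H12.EV Pool.Agent.H12.EU Pool.Agent.H83.EX Finset

/-- the comparison function: `z` the rounding factor, `m` the level -/
noncomputable def H (z : ℝ) (m r : ℕ) (x R y T : ℝ) : ℝ :=
  T * F r (x / (z ^ m * y)) (R / (z ^ m * y)) +
    1000000 * uU r * z ^ m * T ^ (43 / 50 : ℝ) * (y / R)

lemma uU_ge (r : ℕ) : 38 / 100 ≤ uU r := by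
  unfold uU
  split <;> norm_num

lemma uU_nonneg (r : ℕ) : 0 ≤ uU r := le_trans (by norm_num) (uU_ge r)

lemma H_nonneg {z : ℝ} (hz : 0 ≤ z) (m r : ℕ) {x R y T : ℝ} (hR : 0 < R) (hy : 0 ≤ y)
    (hT : 0 ≤ T) : 0 ≤ H z m r x R y T := by
  unfold H
  have h1 := F_nonneg r (x / (z ^ m * y)) (R / (z ^ m * y))
  have h2 := uU_nonneg r
  positivity

lemma baseF {x R : ℝ} (hR : 0 < R) {z : ℝ} (hz : 1 ≤ z)
    (m T A Q : ℕ) (Y : ℝ) (hY : 0 ≤ Y)
    (hel : ∀ s, s < T → ((A + 6 * Q * s : ℕ) : ℝ) ≤ Y)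
    (hc : Y < R ∨ x ≤ z ^ m * (Y + 1 / 4) ∨ T < 200000) :
    (NU A Q x R T : ℝ) ≤ H z m (A % 6) x R (Y + 1 / 4) T := by
  have hT0 : (0 : ℝ) ≤ T := Nat.cast_nonneg T
  have hzm : 1 ≤ z ^ m := one_le_pow₀ hz
  have hy0 : 0 < Y + 1 / 4 := by linarith
  have hH0 : 0 ≤ H z m (A % 6) x R (Y + 1 / 4) T := H_nonneg (by linarith) _ _ hR hy0.le hT0
  by_cases h1 : Y < R
  · rw [NU_zero A Q x R T (fun s hs => (hel s hs).trans_lt h1)]
    simpa using hH0
  · have h1' : R ≤ Y := not_lt.mp h1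
    have hNT : (NU A Q x R T : ℝ) ≤ T := by exact_mod_cast NU_le A Q x R T
    have hp0 : 0 ≤ (T : ℝ) ^ (43 / 50 : ℝ) := Real.rpow_nonneg hT0 _
    have hu0 := uU_nonneg (A % 6)
    have hd0 : 0 < z ^ m * (Y + 1 / 4) := mul_pos (by linarith) hy0
    rcases hc with h2 | h2 | h2
    · exact absurd h2 h1
    · refine hNT.trans ?_
      unfold H
      have hF : F (A % 6) (x / (z ^ m * (Y + 1 / 4))) (R / (z ^ m * (Y + 1 / 4))) = 1 := by
        apply F_one
        · rw [div_le_one hd0]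
          exact h2
        · rw [div_le_one hd0]
          nlinarith
      rw [hF, mul_one]
      have : 0 ≤ 1000000 * uU (A % 6) * z ^ m * (T : ℝ) ^ (43 / 50 : ℝ) * ((Y + 1 / 4) / R) := by
        positivity
      linarith
    · rcases Nat.eq_zero_or_pos T with hT | hT
      · subst hT
        refine hNT.trans ?_
        simpa using hH0
      · refine hNT.trans ?_
        have hT1 : (1 : ℝ) ≤ T := by exact_mod_cast hT
        have hT2 : (T : ℝ) ≤ 200000 := by exact_mod_cast h2.le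
        have h3 := uU_ge (A % 6)
        have h4 : 1 ≤ (T : ℝ) ^ (43 / 50 : ℝ) := Real.one_le_rpow hT1 (by norm_num)
        have h5 : 1 ≤ (Y + 1 / 4) / R := by
          rw [one_le_div hR]
          linarith
        have h6 : (200000 : ℝ) ≤ 1000000 * uU (A % 6) := by linarith
        have h7 : (200000 : ℝ) ≤ 1000000 * uU (A % 6) * z ^ m := by nlinarith
        have h8 : (200000 : ℝ) ≤ 1000000 * uU (A % 6) * z ^ m * (T : ℝ) ^ (43 / 50 : ℝ) := by
          nlinarith
        have h9 : (200000 : ℝ) ≤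
            1000000 * uU (A % 6) * z ^ m * (T : ℝ) ^ (43 / 50 : ℝ) * ((Y + 1 / 4) / R) := by
          nlinarith
        unfold H
        have h10 : 0 ≤ (T : ℝ) * F (A % 6) (x / (z ^ m * (Y + 1 / 4)))
            (R / (z ^ m * (Y + 1 / 4))) := mul_nonneg hT0 (F_nonneg _ _ _)
        linarith

lemma childF {x R : ℝ} (hx : 0 < x) (hR : 0 < R) {z : ℝ} (hz : z = 1 + 1 / (2 * R))
    {k T T' : ℕ} (hk : k = 2 ∨ k = 3) (hTT : (T' : ℝ) * k ≤ T + (k - 1)) {Y : ℝ} (hY : R ≤ Y)
    (m r : ℕ) :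
    H z m r x R (Y / k + 1 / 4) T' ≤
      (T + (k - 1)) / k * F r (k * (x / (z ^ (m + 1) * (Y + 1 / 4))))
        (k * (R / (z ^ (m + 1) * (Y + 1 / 4)))) +
      1000000 * uU r * z ^ m * ((T + (k - 1)) / k : ℝ) ^ (43 / 50 : ℝ) *
        ((Y + 1 / 4) / k * z / R) := by
  have hk2 : (2 : ℝ) ≤ k := by
    rcases hk with h | h <;> rw [h] <;> norm_num
  have hk3 : (k : ℝ) ≤ 3 := by
    rcases hk with h | h <;> rw [h] <;> norm_num
  have hk0 : (0 : ℝ) < k := by linarith
  have hz1 : 1 ≤ z := by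
    rw [hz]
    have : 0 < 1 / (2 * R) := by positivity
    linarith
  have hz0 : 0 < z := by linarith
  have hY0 : 0 < Y := by linarith
  have hyk : Y / k + 1 / 4 ≤ (Y + 1 / 4) / k * z := by
    have e : (Y + 1 / 4) / k * z =
        Y / k + 1 / 4 / k + (Y + 1 / 4) / R * (1 / (2 * k)) := by
      rw [hz]
      field_simp
    rw [e]
    have h1 : 1 ≤ (Y + 1 / 4) / R := by
      rw [one_le_div hR]
      linarith
    have h2 : 0 < 1 / (2 * (k : ℝ)) := by positivity
    have h3 : 1 / (2 * (k : ℝ)) ≤ (Y + 1 / 4) / R * (1 / (2 * k)) := by nlinarith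
    have h4 : (1 : ℝ) / 4 ≤ 1 / 4 / k + 1 / (2 * k) := by
      have : (1 : ℝ) / 4 / k + 1 / (2 * k) = 3 / 4 / k := by
        field_simp
        norm_num
      rw [this, le_div_iff₀ hk0]
      linarith
    linarith
  have hyk0 : 0 < Y / k + 1 / 4 := by positivity
  have hTk : (T' : ℝ) ≤ (T + (k - 1)) / k := by
    rw [le_div_iff₀ hk0]
    exact hTT
  have hzm : 0 < z ^ m := by positivity
  have hT'0 : (0 : ℝ) ≤ T' := Nat.cast_nonneg _
  have hanti : ∀ c : ℝ, 0 ≤ c → k * (c / (z ^ (m + 1) * (Y + 1 / 4))) ≤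
      c / (z ^ m * (Y / k + 1 / 4)) := by
    intro c hc
    have e : k * (c / (z ^ (m + 1) * (Y + 1 / 4))) = c / (z ^ m * ((Y + 1 / 4) / k * z)) := by
      rw [pow_succ]
      have : Y + 1 / 4 ≠ 0 := by positivity
      field_simp
    rw [e]
    apply div_le_div_of_nonneg_left hc (by positivity)
    exact mul_le_mul_of_nonneg_left hyk hzm.le
  unfold H
  have hu0 := uU_nonneg r
  refine add_le_add ?_ ?_
  · refine mul_le_mul hTk (F_anti r (hanti x hx.le) (hanti R hR.le)) (F_nonneg _ _ _)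
      (hT'0.trans hTk)
  · have h1 : (T' : ℝ) ^ (43 / 50 : ℝ) ≤ ((T + (k - 1)) / k : ℝ) ^ (43 / 50 : ℝ) :=
      Real.rpow_le_rpow hT'0 hTk (by norm_num)
    have h2 : (Y / k + 1 / 4) / R ≤ (Y + 1 / 4) / k * z / R :=
      div_le_div_of_nonneg_right hyk hR.le
    refine mul_le_mul (mul_le_mul_of_nonneg_left h1 (by positivity)) h2 (by positivity) ?_
    have h3 : 0 ≤ ((T + (k - 1)) / k : ℝ) := hT'0.trans hTk
    positivity

lemma stepF {x R : ℝ} (hR : 0 < R) {z : ℝ} (hz : 1 ≤ z)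
    {k T : ℕ} (hk : k = 2 ∨ k = 3) (hT : 200000 ≤ T) {y : ℝ} (hRy : R ≤ y) (m r : ℕ) {FS US : ℝ}
    (hFS : FS / k = F r (x / (z ^ (m + 1) * y)) (R / (z ^ (m + 1) * y))) (hUS : 0 ≤ US)
    (hu : (k : ℝ) ^ (-(43 / 50) : ℝ) * US / k * (1 + 1 / 100000) + 1 / 10000 ≤ uU r) :
    (T + (k - 1)) / k * FS +
      1000000 * US * z ^ m * ((T + (k - 1)) / k : ℝ) ^ (43 / 50 : ℝ) * (y / k * z / R) ≤
      H z (m + 1) r x R y T := by
  have hk2 : (2 : ℝ) ≤ k := by
    rcases hk with h | h <;> rw [h] <;> norm_num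
  have hk3 : (k : ℝ) ≤ 3 := by
    rcases hk with h | h <;> rw [h] <;> norm_num
  have hk0 : (0 : ℝ) < k := by linarith
  have hT1 : (200000 : ℝ) ≤ T := by exact_mod_cast hT
  have hT0 : (0 : ℝ) < T := by linarith
  have hy0 : 0 < y := by linarith
  have hz0 : 0 < z := by linarith
  set f : ℝ := F r (x / (z ^ (m + 1) * y)) (R / (z ^ (m + 1) * y)) with hf
  have hf0 : 0 ≤ f := F_nonneg _ _ _
  have hf1 : f ≤ 1 := F_le_one _ _ _
  have p1 : (T + (k - 1)) / k * FS ≤ T * f + 2 := by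
    have e : ((T : ℝ) + (k - 1)) / k * FS = (T + (k - 1)) * (FS / k) := by ring
    rw [e, hFS]
    nlinarith
  have q1 : ((T + (k - 1)) / k : ℝ) ^ (43 / 50 : ℝ) ≤
      (T : ℝ) ^ (43 / 50 : ℝ) * (1 + 1 / 100000) * (k : ℝ) ^ (-(43 / 50) : ℝ) := by
    have h0 : (0 : ℝ) ≤ T + (k - 1) := by linarith
    rw [Real.div_rpow h0 hk0.le, Real.rpow_neg hk0.le, ← div_eq_mul_inv]
    refine div_le_div_of_nonneg_right ?_ (Real.rpow_nonneg hk0.le _)
    have h1 : (T : ℝ) + (k - 1) ≤ T * (1 + 1 / 100000) := by nlinarith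
    calc ((T : ℝ) + (k - 1)) ^ (43 / 50 : ℝ) ≤ (T * (1 + 1 / 100000)) ^ (43 / 50 : ℝ) :=
          Real.rpow_le_rpow h0 h1 (by norm_num)
      _ = (T : ℝ) ^ (43 / 50 : ℝ) * (1 + 1 / 100000) ^ (43 / 50 : ℝ) :=
          Real.mul_rpow hT0.le (by norm_num)
      _ ≤ (T : ℝ) ^ (43 / 50 : ℝ) * (1 + 1 / 100000) := by
          refine mul_le_mul_of_nonneg_left ?_ (Real.rpow_nonneg hT0.le _)
          calc ((1 : ℝ) + 1 / 100000) ^ (43 / 50 : ℝ) ≤ (1 + 1 / 100000) ^ (1 : ℝ) :=
                Real.rpow_le_rpow_of_exponent_le (by norm_num) (by norm_num)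
            _ = 1 + 1 / 100000 := Real.rpow_one _
  have hTp0 : 1 ≤ (T : ℝ) ^ (43 / 50 : ℝ) := Real.one_le_rpow (by linarith) (by norm_num)
  have hyR1 : 1 ≤ y / R := by
    rw [one_le_div hR]
    exact hRy
  have hzm1 : 1 ≤ z ^ (m + 1) := one_le_pow₀ hz
  have hkp : 0 < (k : ℝ) ^ (-(43 / 50) : ℝ) := Real.rpow_pos_of_pos hk0 _
  have hzz : z ^ (m + 1) = z ^ m * z := pow_succ _ _
  have p2 : 1000000 * US * z ^ m * ((T + (k - 1)) / k : ℝ) ^ (43 / 50 : ℝ) * (y / k * z / R) ≤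
      1000000 * (uU r - 1 / 10000) * z ^ (m + 1) * (T : ℝ) ^ (43 / 50 : ℝ) * (y / R) := by
    calc 1000000 * US * z ^ m * ((T + (k - 1)) / k : ℝ) ^ (43 / 50 : ℝ) * (y / k * z / R)
        ≤ 1000000 * US * z ^ m *
          ((T : ℝ) ^ (43 / 50 : ℝ) * (1 + 1 / 100000) * (k : ℝ) ^ (-(43 / 50) : ℝ)) *
          (y / k * z / R) :=
          mul_le_mul_of_nonneg_right (mul_le_mul_of_nonneg_left q1 (by positivity))
            (by positivity)
      _ = 1000000 * ((k : ℝ) ^ (-(43 / 50) : ℝ) * US / k * (1 + 1 / 100000)) *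
          z ^ (m + 1) * (T : ℝ) ^ (43 / 50 : ℝ) * (y / R) := by
          rw [hzz]
          field_simp
      _ ≤ 1000000 * (uU r - 1 / 10000) * z ^ (m + 1) * (T : ℝ) ^ (43 / 50 : ℝ) * (y / R) := by
          have h7 : (k : ℝ) ^ (-(43 / 50) : ℝ) * US / k * (1 + 1 / 100000) ≤
              uU r - 1 / 10000 := by
            linarith
          exact mul_le_mul_of_nonneg_right (mul_le_mul_of_nonneg_right
            (mul_le_mul_of_nonneg_right (mul_le_mul_of_nonneg_left h7 (by norm_num))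
              (by positivity)) (by positivity)) (by positivity)
  have p3 : 2 ≤ 1000000 * (1 / 10000) * z ^ (m + 1) * (T : ℝ) ^ (43 / 50 : ℝ) * (y / R) := by
    have h1 : (100 : ℝ) ≤ 1000000 * (1 / 10000) * z ^ (m + 1) := by linarith
    have h2 : (100 : ℝ) ≤ 1000000 * (1 / 10000) * z ^ (m + 1) * (T : ℝ) ^ (43 / 50 : ℝ) := by
      nlinarith
    nlinarith
  unfold H
  rw [← hf]
  have e : 1000000 * uU r * z ^ (m + 1) * (T : ℝ) ^ (43 / 50 : ℝ) * (y / R) =
      1000000 * (uU r - 1 / 10000) * z ^ (m + 1) * (T : ℝ) ^ (43 / 50 : ℝ) * (y / R) +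
      1000000 * (1 / 10000) * z ^ (m + 1) * (T : ℝ) ^ (43 / 50 : ℝ) * (y / R) := by ring
  rw [e]
  linarith

lemma u0 : (2 : ℝ) ^ (-(43 / 50) : ℝ) * (uU 0 + uU 3) / 2 * (1 + 1 / 100000) + 1 / 10000 ≤
    uU 0 := by
  have t2 := two_powU
  simp only [uU]
  linarith

lemma u2 : (2 : ℝ) ^ (-(43 / 50) : ℝ) * (uU 1 + uU 4) / 2 * (1 + 1 / 100000) + 1 / 10000 ≤
    uU 2 := by
  have t2 := two_powU
  simp only [uU]
  linarith

lemma u3 : (3 : ℝ) ^ (-(43 / 50) : ℝ) * (uU 1 + uU 3 + uU 5) / 3 * (1 + 1 / 100000) +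
    1 / 10000 ≤ uU 3 := by
  have t3 := three_powU
  simp only [uU]
  linarith

lemma u4 : (2 : ℝ) ^ (-(43 / 50) : ℝ) * (uU 2 + uU 5) / 2 * (1 + 1 / 100000) + 1 / 10000 ≤
    uU 4 := by
  have t2 := two_powU
  simp only [uU]
  linarith

lemma u1 : 5 * uU 0 ≤ uU 1 := by
  simp only [uU]
  norm_num

lemma u5 : 5 * uU 2 ≤ uU 5 := by
  simp only [uU]
  norm_num

theorem mainF {x R : ℝ} (hx : 1 / 2 ≤ x) (hR : 0 < R) {z : ℝ} (hz : z = 1 + 1 / (2 * R)) :
    ∀ (m T : ℕ), T ≤ 2 ^ m → ∀ (A Q : ℕ) (Y : ℝ), Q % 2 = 1 → Q % 3 ≠ 0 → 0 ≤ Y →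
      (∀ s, s < T → ((A + 6 * Q * s : ℕ) : ℝ) ≤ Y) →
      (NU A Q x R T : ℝ) ≤ H z m (A % 6) x R (Y + 1 / 4) T := by
  have hx0 : 0 < x := by linarith
  have hz1 : 1 ≤ z := by
    rw [hz]
    have : 0 < 1 / (2 * R) := by positivity
    linarith
  have hz0 : 0 < z := by linarith
  -- what the negation of the base case gives
  have nb : ∀ (m : ℕ) (Y : ℝ), 0 ≤ Y → R ≤ Y → z ^ m * (Y + 1 / 4) < x →
      Y < x ∧ 1 < x / (z ^ m * (Y + 1 / 4)) ∧ R / (z ^ m * (Y + 1 / 4)) ≤ 1 := by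
    intro m Y hY hRY hxY
    have hzm : 1 ≤ z ^ m := one_le_pow₀ hz1
    have hd0 : 0 < z ^ m * (Y + 1 / 4) := mul_pos (by linarith) (by linarith)
    refine ⟨by nlinarith, ?_, ?_⟩
    · rw [one_lt_div hd0]
      exact hxY
    · rw [div_le_one hd0]
      nlinarith
  -- the step for residues other than 1, 5 gives the step for all residues
  have ext : ∀ (m T : ℕ), (∀ (A Q : ℕ) (Y : ℝ), Q % 2 = 1 → Q % 3 ≠ 0 → 0 ≤ Y →
      A % 6 ≠ 1 → A % 6 ≠ 5 → (∀ s, s < T → ((A + 6 * Q * s : ℕ) : ℝ) ≤ Y) →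
      (NU A Q x R T : ℝ) ≤ H z m (A % 6) x R (Y + 1 / 4) T) →
      ∀ (A Q : ℕ) (Y : ℝ), Q % 2 = 1 → Q % 3 ≠ 0 → 0 ≤ Y →
      (∀ s, s < T → ((A + 6 * Q * s : ℕ) : ℝ) ≤ Y) →
      (NU A Q x R T : ℝ) ≤ H z m (A % 6) x R (Y + 1 / 4) T := by
    intro m T low A Q Y hQ2 hQ3 hY hel
    by_cases hbase : Y < R ∨ x ≤ z ^ m * (Y + 1 / 4) ∨ T < 200000
    · exact baseF hR hz1 m T A Q Y hY hel hbase
    · push Not at hbase
      obtain ⟨hY1, hY2, _⟩ := hbase
      obtain ⟨n1, n2, n3⟩ := nb m Y hY hY1 hY2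
      by_cases h15 : A % 6 = 1 ∨ A % 6 = 5
      · have hn := NU_five A Q x R T h15 (fun s hs => (hel s hs).trans_lt n1)
        have hnr : (NU A Q x R T : ℝ) ≤ (NU (5 * A + 1) (5 * Q) x R T : ℝ) := by
          exact_mod_cast hn
        have i1 := low (5 * A + 1) (5 * Q) (5 * Y + 1) (by omega) (by omega) (by linarith)
          (by omega) (by omega) (by
            intro s hs
            have h := hel s hs
            push_cast at h ⊢
            nlinarith)
        refine hnr.trans (i1.trans ?_)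
        have hT0 : (0 : ℝ) ≤ T := Nat.cast_nonneg T
        have conv : ∀ r' r'' : ℕ, F r'' (x / (z ^ m * (Y + 1 / 4))) (R / (z ^ m * (Y + 1 / 4))) =
            F r' (x / (z ^ m * (Y + 1 / 4)) / 5) (R / (z ^ m * (Y + 1 / 4)) / 5) →
            5 * uU r' ≤ uU r'' →
            H z m r' x R (5 * Y + 1 + 1 / 4) T ≤ H z m r'' x R (Y + 1 / 4) T := by
          intro r' r'' g1 g2
          unfold H
          have e0 : 5 * Y + 1 + 1 / 4 = 5 * (Y + 1 / 4) := by ring
          have hy0 : Y + 1 / 4 ≠ 0 := by positivity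
          have e1 : ∀ c : ℝ, c / (z ^ m * (5 * (Y + 1 / 4))) =
              c / (z ^ m * (Y + 1 / 4)) / 5 := by
            intro c
            field_simp
          rw [e0, e1, e1, g1]
          have h3 : 0 ≤ 1000000 * z ^ m * (T : ℝ) ^ (43 / 50 : ℝ) * ((Y + 1 / 4) / R) := by
            positivity
          have h4 := mul_le_mul_of_nonneg_left g2 h3
          have e2 : 5 * (Y + 1 / 4) / R = 5 * ((Y + 1 / 4) / R) := by ring
          rw [e2]
          linarith
        rcases h15 with h | h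
        · have e : (5 * A + 1) % 6 = 0 := by omega
          rw [e, h]
          refine conv 0 1 ?_ u1
          rw [F_step n2 n3]
          unfold Op
          rw [if_neg (by norm_num), if_pos rfl]
        · have e : (5 * A + 1) % 6 = 2 := by omega
          rw [e, h]
          refine conv 2 5 ?_ u5
          rw [F_step n2 n3]
          unfold Op
          rw [if_neg (by norm_num), if_neg (by norm_num), if_neg (by norm_num),
            if_neg (by norm_num), if_neg (by norm_num)]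
      · push Not at h15
        exact low A Q Y hQ2 hQ3 hY h15.1 h15.2 hel
  intro m
  induction m with
  | zero =>
    intro T hT A Q Y hQ2 hQ3 hY hel
    exact baseF hR hz1 0 T A Q Y hY hel (Or.inr (Or.inr (by simp at hT; omega)))
  | succ m ih =>
    intro T hT
    refine ext (m + 1) T ?_
    intro A Q Y hQ2 hQ3 hY hA1 hA5 hel
    by_cases hbase : Y < R ∨ x ≤ z ^ (m + 1) * (Y + 1 / 4) ∨ T < 200000
    · exact baseF hR hz1 (m + 1) T A Q Y hY hel hbase
    · push Not at hbase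
      obtain ⟨hY1, hY2, hTbig⟩ := hbase
      obtain ⟨n1, n2, n3⟩ := nb (m + 1) Y hY hY1 hY2
      have helx : ∀ s, s < T → ((A + 6 * Q * s : ℕ) : ℝ) < x :=
        fun s hs => (hel s hs).trans_lt n1
      have hcase : A % 6 = 0 ∨ A % 6 = 2 ∨ A % 6 = 3 ∨ A % 6 = 4 := by omega
      have hyR : R ≤ Y + 1 / 4 := by linarith
      have hpow : 2 ^ (m + 1) = 2 * 2 ^ m := by ring
      set LL : ℝ := x / (z ^ (m + 1) * (Y + 1 / 4)) with hLL
      set RR : ℝ := R / (z ^ (m + 1) * (Y + 1 / 4)) with hRR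
      have ev : A % 2 = 0 → ∀ i j : ℕ, ((A / 2) % 6 = i ∧ (A / 2 + 3 * Q) % 6 = j ∨
          (A / 2) % 6 = j ∧ (A / 2 + 3 * Q) % 6 = i) →
          F (A % 6) LL RR = (F i (2 * LL) (2 * RR) + F j (2 * LL) (2 * RR)) / 2 →
          (2 : ℝ) ^ (-(43 / 50) : ℝ) * (uU i + uU j) / 2 * (1 + 1 / 100000) + 1 / 10000 ≤
            uU (A % 6) →
          (NU A Q x R T : ℝ) ≤ H z (m + 1) (A % 6) x R (Y + 1 / 4) T := by
        intro hA2 i j hij hv hu
        have hn := NU_even A Q x R T hA2 helx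
        have hnr : (NU A Q x R T : ℝ) ≤ (NU (A / 2) Q x R ((T + 1) / 2) : ℝ) +
            (NU (A / 2 + 3 * Q) Q x R (T / 2) : ℝ) := by
          exact_mod_cast hn
        have hA : A = 2 * (A / 2) := by omega
        have i1 := ih ((T + 1) / 2) (by omega) (A / 2) Q (Y / 2) hQ2 hQ3 (by linarith) (by
          intro s hs
          have h := hel (2 * s) (by omega)
          have e : A + 6 * Q * (2 * s) = 2 * (A / 2 + 6 * Q * s) := by
            calc A + 6 * Q * (2 * s) = 2 * (A / 2) + 6 * Q * (2 * s) := by rw [← hA]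
              _ = _ := by ring
          rw [e] at h
          push_cast at h ⊢
          linarith)
        have i2 := ih (T / 2) (by omega) (A / 2 + 3 * Q) Q (Y / 2) hQ2 hQ3 (by linarith) (by
          intro s hs
          have h := hel (2 * s + 1) (by omega)
          have e : A + 6 * Q * (2 * s + 1) = 2 * (A / 2 + 3 * Q + 6 * Q * s) := by
            calc A + 6 * Q * (2 * s + 1) = 2 * (A / 2) + 6 * Q * (2 * s + 1) := by rw [← hA]
              _ = _ := by ring
          rw [e] at h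
          push_cast at h ⊢
          linarith)
        have hst := stepF (x := x) hR hz1 (k := 2) (T := T) (Or.inl rfl) hTbig hyR m (A % 6)
          (FS := F i (2 * LL) (2 * RR) + F j (2 * LL) (2 * RR)) (US := uU i + uU j)
          (by push_cast; exact hv.symm) (add_nonneg (uU_nonneg i) (uU_nonneg j))
          (by push_cast; exact hu)
        have cc : ∀ T' : ℕ, T' * 2 ≤ T + 1 → ∀ r, H z m r x R (Y / 2 + 1 / 4) (T' : ℝ) ≤
            (T + ((2 : ℕ) - 1)) / (2 : ℕ) * F r (2 * LL) (2 * RR) +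
            1000000 * uU r * z ^ m * ((T + ((2 : ℕ) - 1)) / (2 : ℕ) : ℝ) ^ (43 / 50 : ℝ) *
              ((Y + 1 / 4) / (2 : ℕ) * z / R) := by
          intro T' hT' r
          have h := childF hx0 hR hz (k := 2) (T := T) (T' := T') (Or.inl rfl) (by
            have h2 : ((T' * 2 : ℕ) : ℝ) ≤ ((T + 1 : ℕ) : ℝ) := by exact_mod_cast hT'
            push_cast at h2 ⊢
            linarith) hY1 m r
          push_cast at h ⊢
          exact h
        have c1 := cc ((T + 1) / 2) (by omega)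
        have c2 := cc (T / 2) (by omega)
        have key : ∀ a b : ℕ, (A / 2) % 6 = a → (A / 2 + 3 * Q) % 6 = b →
            F a (2 * LL) (2 * RR) + F b (2 * LL) (2 * RR) =
              F i (2 * LL) (2 * RR) + F j (2 * LL) (2 * RR) → uU a + uU b = uU i + uU j →
            (NU A Q x R T : ℝ) ≤ H z (m + 1) (A % 6) x R (Y + 1 / 4) T := by
          intro a b e1 e2 e3 e4
          rw [e1] at i1
          rw [e2] at i2
          have k1 := c1 a
          have k2 := c2 b
          refine le_trans ?_ hst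
          rw [← e3, ← e4]
          linarith
        rcases hij with ⟨e1, e2⟩ | ⟨e1, e2⟩
        · exact key i j e1 e2 rfl rfl
        · exact key j i e1 e2 (add_comm _ _) (add_comm _ _)
      rcases hcase with h | h | h | h
      · refine ev (by omega) 0 3 (by omega) ?_ ?_
        · rw [h, F_step n2 n3]
          unfold Op
          rw [if_pos rfl]
        · rw [h]; exact u0
      · refine ev (by omega) 1 4 (by omega) ?_ ?_
        · rw [h, F_step n2 n3]
          unfold Op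
          rw [if_neg (by norm_num), if_neg (by norm_num), if_pos rfl]
        · rw [h]; exact u2
      · have hn := NU_three A Q x R T h helx
        have hnr : (NU A Q x R T : ℝ) ≤ (NU (A / 3) Q x R ((T + 2) / 3) : ℝ) +
            (NU (A / 3 + 2 * Q) Q x R ((T + 1) / 3) : ℝ) +
            (NU (A / 3 + 4 * Q) Q x R (T / 3) : ℝ) := by
          exact_mod_cast hn
        have hA : A = 3 * (A / 3) := by omega
        have h2m : 1 ≤ 2 ^ m := Nat.one_le_two_pow
        have i1 := ih ((T + 2) / 3) (by omega) (A / 3) Q (Y / 3) hQ2 hQ3 (by linarith) (by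
          intro s hs
          have h := hel (3 * s) (by omega)
          have e : A + 6 * Q * (3 * s) = 3 * (A / 3 + 6 * Q * s) := by
            calc A + 6 * Q * (3 * s) = 3 * (A / 3) + 6 * Q * (3 * s) := by rw [← hA]
              _ = _ := by ring
          rw [e] at h
          push_cast at h ⊢
          linarith)
        have i2 := ih ((T + 1) / 3) (by omega) (A / 3 + 2 * Q) Q (Y / 3) hQ2 hQ3 (by linarith) (by
          intro s hs
          have h := hel (3 * s + 1) (by omega)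
          have e : A + 6 * Q * (3 * s + 1) = 3 * (A / 3 + 2 * Q + 6 * Q * s) := by
            calc A + 6 * Q * (3 * s + 1) = 3 * (A / 3) + 6 * Q * (3 * s + 1) := by rw [← hA]
              _ = _ := by ring
          rw [e] at h
          push_cast at h ⊢
          linarith)
        have i3 := ih (T / 3) (by omega) (A / 3 + 4 * Q) Q (Y / 3) hQ2 hQ3 (by linarith) (by
          intro s hs
          have h := hel (3 * s + 2) (by omega)
          have e : A + 6 * Q * (3 * s + 2) = 3 * (A / 3 + 4 * Q + 6 * Q * s) := by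
            calc A + 6 * Q * (3 * s + 2) = 3 * (A / 3) + 6 * Q * (3 * s + 2) := by rw [← hA]
              _ = _ := by ring
          rw [e] at h
          push_cast at h ⊢
          linarith)
        have hFs : F (A % 6) LL RR = (F 1 (3 * LL) (3 * RR) + F 3 (3 * LL) (3 * RR) +
            F 5 (3 * LL) (3 * RR)) / 3 := by
          rw [h, F_step n2 n3]
          unfold Op
          rw [if_neg (by norm_num), if_neg (by norm_num), if_neg (by norm_num), if_pos rfl]
        have hst := stepF (x := x) hR hz1 (k := 3) (T := T) (Or.inr rfl) hTbig hyR m (A % 6)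
          (FS := F 1 (3 * LL) (3 * RR) + F 3 (3 * LL) (3 * RR) + F 5 (3 * LL) (3 * RR))
          (US := uU 1 + uU 3 + uU 5)
          (by push_cast; exact hFs.symm)
          (add_nonneg (add_nonneg (uU_nonneg 1) (uU_nonneg 3)) (uU_nonneg 5))
          (by push_cast; rw [h]; exact u3)
        have cc : ∀ T' : ℕ, T' * 3 ≤ T + 2 → ∀ r, H z m r x R (Y / 3 + 1 / 4) (T' : ℝ) ≤
            (T + ((3 : ℕ) - 1)) / (3 : ℕ) * F r (3 * LL) (3 * RR) +
            1000000 * uU r * z ^ m * ((T + ((3 : ℕ) - 1)) / (3 : ℕ) : ℝ) ^ (43 / 50 : ℝ) *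
              ((Y + 1 / 4) / (3 : ℕ) * z / R) := by
          intro T' hT' r
          have h := childF hx0 hR hz (k := 3) (T := T) (T' := T') (Or.inr rfl) (by
            have h2 : ((T' * 3 : ℕ) : ℝ) ≤ ((T + 2 : ℕ) : ℝ) := by exact_mod_cast hT'
            push_cast at h2 ⊢
            linarith) hY1 m r
          push_cast at h ⊢
          exact h
        have c1 := cc ((T + 2) / 3) (by omega)
        have c2 := cc ((T + 1) / 3) (by omega)
        have c3 := cc (T / 3) (by omega)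
        have key : ∀ a b c : ℕ, (A / 3) % 6 = a → (A / 3 + 2 * Q) % 6 = b →
            (A / 3 + 4 * Q) % 6 = c →
            F a (3 * LL) (3 * RR) + F b (3 * LL) (3 * RR) + F c (3 * LL) (3 * RR) =
              F 1 (3 * LL) (3 * RR) + F 3 (3 * LL) (3 * RR) + F 5 (3 * LL) (3 * RR) →
            uU a + uU b + uU c = uU 1 + uU 3 + uU 5 →
            (NU A Q x R T : ℝ) ≤ H z (m + 1) (A % 6) x R (Y + 1 / 4) T := by
          intro a b c e1 e2 e3 e4 e5
          rw [e1] at i1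
          rw [e2] at i2
          rw [e3] at i3
          have k1 := c1 a
          have k2 := c2 b
          have k3 := c3 c
          refine le_trans ?_ hst
          rw [← e4, ← e5]
          linarith
        have hc := three_cases A Q h hQ2 hQ3
        rcases hc with ⟨e1, e2, e3⟩ | ⟨e1, e2, e3⟩ | ⟨e1, e2, e3⟩ | ⟨e1, e2, e3⟩ |
          ⟨e1, e2, e3⟩ | ⟨e1, e2, e3⟩
        · exact key 1 3 5 e1 e2 e3 rfl rfl
        · exact key 1 5 3 e1 e2 e3 (by ring) (by ring)
        · exact key 3 1 5 e1 e2 e3 (by ring) (by ring)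
        · exact key 3 5 1 e1 e2 e3 (by ring) (by ring)
        · exact key 5 1 3 e1 e2 e3 (by ring) (by ring)
        · exact key 5 3 1 e1 e2 e3 (by ring) (by ring)
      · refine ev (by omega) 2 5 (by omega) ?_ ?_
        · rw [h, F_step n2 n3]
          unfold Op
          rw [if_neg (by norm_num), if_neg (by norm_num), if_neg (by norm_num),
            if_neg (by norm_num), if_pos rfl]
        · rw [h]; exact u4

theorem upF : ∃ B : ℝ, 0 ≤ B ∧ ∀ x R : ℝ, 1 / 2 ≤ x → 1 / 2 ≤ R → ∀ (m T : ℕ), T ≤ 2 ^ m →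
    ∀ (A Q : ℕ) (Y : ℝ), Q % 2 = 1 → Q % 3 ≠ 0 → 0 ≤ Y →
    (∀ s, s < T → ((A + 6 * Q * s : ℕ) : ℝ) ≤ Y) →
    (NU A Q x R T : ℝ) ≤ (T : ℝ) * F (A % 6) (x / ((1 + 1 / (2 * R)) ^ m * (Y + 1 / 4)))
        (R / ((1 + 1 / (2 * R)) ^ m * (Y + 1 / 4)))
      + B * (1 + 1 / (2 * R)) ^ m * (T : ℝ) ^ (43 / 50 : ℝ) * ((Y + 1 / 4) / R) := by
  refine ⟨5000000, by norm_num, ?_⟩
  intro x R hx hR m T hT A Q Y hQ2 hQ3 hY hel
  have hR0 : 0 < R := by linarith
  refine (mainF hx hR0 rfl m T hT A Q Y hQ2 hQ3 hY hel).trans ?_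
  unfold H
  have h1 := uU_le (A % 6)
  have hT0 : (0 : ℝ) ≤ T := Nat.cast_nonneg T
  have h2 : 0 ≤ (1 + 1 / (2 * R)) ^ m * (T : ℝ) ^ (43 / 50 : ℝ) * ((Y + 1 / 4) / R) := by
    positivity
  have h3 := mul_le_mul_of_nonneg_right h1 h2
  linarith

end Pool.Agent.H19.EV
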